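import Pool.Agent.H24.CL.Targets
import Pool.Agent.H15.VM.EX

/-!
# EX: properties of `e` and `u`
-/

set_option autoImplicit false

open Finset MeasureTheory

namespace Pool.Agent.H34.CLV

open Pool.Agent.H24.CL

theorem e_coe (x : ℝ) : e (x : UnitAddCircle) = Pool.Agent.H22.VM.e x := by
  unfold e Pool.Agent.H22.VM.e
  rw [AddCircle.toCircle_apply_mk, Circle.coe_exp]
  congr 1
  push_cast
  ring

theorem e_norm (x : UnitAddCircle) : ‖e x‖ = 1 := by
  unfold e
  exact Circle.norm_coe _

theorem e_add (x y : UnitAddCircle) : e (x + y) = e x * e y := by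
  unfold e
  rw [AddCircle.toCircle_add, Circle.coe_mul]

theorem e_cont : Continuous e := by
  unfold e
  exact continuous_subtype_val.comp AddCircle.continuous_toCircle

theorem P_add (k n : ℕ) (a a' : X k) : P (a + a') n = P a n + P a' n := by
  unfold P
  rw [← sum_add_distrib]
  refine sum_congr rfl fun i _ => ?_
  rw [Pi.add_apply, smul_add]

theorem P_cont (k n : ℕ) : Continuous fun a : X k => P a n := by
  unfold P
  fun_prop

theorem f_cont (k N : ℕ) : Continuous (f N : X k → ℂ) := by
  unfold f
  exact continuous_finsetSum _ fun n _ => e_cont.comp (P_cont k n)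

theorem pf_EX : T_EX := by
  refine ⟨e_norm, e_add, ?_, ?_, e_cont, ?_, P_add, ?_, ?_⟩
  · unfold e
    rw [AddCircle.toCircle_zero, Circle.coe_one]
  · intro x
    unfold e
    rw [AddCircle.toCircle_neg, Circle.coe_inv_eq_conj]
  · intro q m hq
    have h := Pool.Agent.H15.VM.ex.2.2.2.2 q m hq
    rw [← h]
    refine sum_congr rfl fun j _ => ?_
    rw [e_coe]
    congr 1
    push_cast
    ring
  · intro k N
    unfold u
    exact (f_cont k N).div_const _
  · intro k N a
    unfold u
    rcases Nat.eq_zero_or_pos N with rfl | hN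
    · simp [f]
    · rw [norm_div, Complex.norm_natCast, div_le_one (by exact_mod_cast hN)]
      unfold f
      refine (norm_sum_le _ _).trans ?_
      simp [e_norm]

end Pool.Agent.H34.CLV
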