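import Pool.Agent.H24.CL.Targets

/-!
# CB: chains and residue classes
-/

set_option autoImplicit false

open Finset MeasureTheory

namespace Pool.Agent.H34.CLV

open Pool.Agent.H24.CL

theorem fc_step (hE : T_EX) (hP : T_PF) (k q Q B L b : ℕ) (a : X k) :
    ‖fc Q B L (phi q b a)‖ = ‖fc (q * Q) (b + q * B) L a‖ := by
  have h1 : fc (q * Q) (b + q * B) L a = e (P a b) * fc Q B L (phi q b a) := by
    unfold fc
    rw [mul_sum]
    refine sum_congr rfl fun z _ => ?_
    have h2 : b + q * B + q * Q * z = b + q * (B + Q * z) := by ring
    rw [h2, hP.1, hE.2.1]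
  rw [h1, norm_mul, hE.1, one_mul]

theorem pf_CB (hE : T_EX) (hP : T_PF) : T_CB := by
  refine ⟨?_, ?_, ?_⟩
  · intro k q L c
    induction c with
    | nil =>
      intro a
      unfold fc f Ch pv
      simp
    | cons b c ih =>
      intro a
      have h1 : (Ch q (b :: c) a : X k) = Ch q c (phi q b a) := rfl
      rw [h1, ih, fc_step hE hP, List.length_cons, pow_succ']
      rfl
  · intro q c
    induction c with
    | nil =>
      intro c' _ _ hl _
      exact (List.length_eq_zero_iff.mp (by simpa using hl.symm)).symm
    | cons b c ih =>
      intro c' hc hc' hl hp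
      cases c' with
      | nil => simp at hl
      | cons b' c' =>
        have hb : b < q := hc b (by simp)
        have hb' : b' < q := hc' b' (by simp)
        have h2 : b + q * pv q c = b' + q * pv q c' := hp
        have h3 : b = b' := by
          have h4 := congrArg (fun x => x % q) h2
          simpa [Nat.add_mul_mod_self_left, Nat.mod_eq_of_lt hb, Nat.mod_eq_of_lt hb'] using h4
        subst h3
        have h5 : q * pv q c = q * pv q c' := by omega
        have h6 : pv q c = pv q c' := Nat.eq_of_mul_eq_mul_left (by omega) h5
        rw [ih c' (fun x hx => hc x (by simp [hx])) (fun x hx => hc' x (by simp [hx]))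
          (by simpa using hl) h6]
  · intro q c hq
    induction c with
    | nil => intro _; simp [pv]
    | cons b c ih =>
      intro hc
      have hb : b < q := hc b (by simp)
      have h1 := ih fun x hx => hc x (by simp [hx])
      have h2 : pv q (b :: c) = b + q * pv q c := rfl
      rw [h2, List.length_cons, pow_succ']
      calc b + q * pv q c < q + q * pv q c := by omega
        _ = q * (pv q c + 1) := by ring
        _ ≤ q * q ^ c.length := Nat.mul_le_mul_left _ h1

end Pool.Agent.H34.CLV
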