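import Pool.Agent.H24.CL.Targets

/-!
# PF: splitting into classes
-/

set_option autoImplicit false

open Finset MeasureTheory

namespace Pool.Agent.H34.CLV

open Pool.Agent.H24.CL

theorem binom (k q b m j : ℕ) (hj : j < k) : (b + q * m) ^ (j + 1) = b ^ (j + 1) +
    ∑ i : Fin k, m ^ (i.val + 1) * (Nat.choose (j + 1) (i.val + 1) * b ^ (j - i.val) *
      q ^ (i.val + 1)) := by
  rw [add_comm b, add_pow, sum_range_succ']
  have h1 : ∑ i : Fin k, m ^ (i.val + 1) * (Nat.choose (j + 1) (i.val + 1) * b ^ (j - i.val) *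
      q ^ (i.val + 1)) = ∑ i ∈ range (j + 1), m ^ (i + 1) * (Nat.choose (j + 1) (i + 1) *
      b ^ (j - i) * q ^ (i + 1)) := by
    rw [Fin.sum_univ_eq_sum_range (n := k)
      (f := fun i => m ^ (i + 1) * (Nat.choose (j + 1) (i + 1) * b ^ (j - i) * q ^ (i + 1)))]
    symm
    apply sum_subset
    · intro i hi
      rw [mem_range] at *
      omega
    · intro i _ hi
      rw [mem_range, not_lt] at hi
      rw [Nat.choose_eq_zero_of_lt (by omega)]
      simp
  rw [h1]
  have h2 : ∑ t ∈ range (j + 1), (q * m) ^ (t + 1) * b ^ (j + 1 - (t + 1)) *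
      (Nat.choose (j + 1) (t + 1)) = ∑ i ∈ range (j + 1), m ^ (i + 1) *
      (Nat.choose (j + 1) (i + 1) * b ^ (j - i) * q ^ (i + 1)) := by
    refine sum_congr rfl fun i _ => ?_
    rw [Nat.add_sub_add_right, mul_pow]
    ring
  rw [← h2]
  simp only [Nat.cast_id, pow_zero, one_mul, Nat.sub_zero, Nat.choose_zero_right, mul_one]
  ring

theorem P_split (k q b m : ℕ) (a : X k) : P a (b + q * m) = P a b + P (phi q b a) m := by
  have h1 : P (phi q b a) m = ∑ j : Fin k, (∑ i : Fin k, m ^ (i.val + 1) *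
      (Nat.choose (j.val + 1) (i.val + 1) * b ^ (j.val - i.val) * q ^ (i.val + 1))) • a j := by
    unfold P
    have h2 : ∀ i : Fin k, (phi q b a : X k) i = ∑ j : Fin k,
      (Nat.choose (j.val + 1) (i.val + 1) * b ^ (j.val - i.val) * q ^ (i.val + 1)) • a j :=
      fun i => rfl
    simp_rw [h2, smul_sum, sum_smul]
    rw [sum_comm]
    refine sum_congr rfl fun j _ => sum_congr rfl fun i _ => ?_
    rw [smul_smul]
  rw [h1]
  unfold P
  rw [← sum_add_distrib]
  refine sum_congr rfl fun j _ => ?_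
  rw [← add_smul, ← binom k q b m j.val j.isLt]

theorem sum_split {M : Type} [AddCommMonoid M] (q L : ℕ) (g : ℕ → M) :
    ∑ n ∈ range (q * L), g n = ∑ b ∈ range q, ∑ m ∈ range L, g (b + q * m) := by
  induction L with
  | zero => simp
  | succ L ih =>
    rw [Nat.mul_succ, Finset.sum_range_add, ih, ← sum_add_distrib]
    refine sum_congr rfl fun b _ => ?_
    rw [sum_range_succ, add_comm (q * L) b]

theorem pf_PF (hE : T_EX) : T_PF := by
  refine ⟨P_split, ?_⟩
  intro k q L hq hL a
  have hf : f (q * L) a = ∑ b ∈ range q, e (P a b) * f L (phi q b a) := by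
    unfold f
    rw [sum_split]
    refine sum_congr rfl fun b _ => ?_
    rw [mul_sum]
    refine sum_congr rfl fun m _ => ?_
    rw [P_split, hE.2.1]
  unfold u
  rw [hf]
  have hq0 : (q : ℂ) ≠ 0 := by exact_mod_cast (by omega : q ≠ 0)
  have hL0 : (L : ℂ) ≠ 0 := by exact_mod_cast (by omega : L ≠ 0)
  push_cast
  rw [mul_sum, sum_div]
  refine sum_congr rfl fun b _ => ?_
  field_simp

end Pool.Agent.H34.CLV
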